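import Pool.Agent.W2helper59.CW.Stm

/-!
# Project CW, piece PROD
-/

set_option autoImplicit false

namespace Pool.Agent.W2helper97.CW

open MeasureTheory Set Pool.Agent.W2helper59.CW

instance instProb (n : ℕ) : IsProbabilityMeasure (mu n) := by
  unfold mu
  have : IsProbabilityMeasure ((volume : Measure ℝ).restrict (Icc (0 : ℝ) 1)) :=
    ⟨by simp [Measure.restrict_apply]⟩
  infer_instance

/-- joining two words -/
def g (c n : ℕ) (q : (Fin c → ℝ) × (Fin n → ℝ)) : Fin (c + n) → ℝ := Fin.append q.1 q.2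

lemma g_left (c n : ℕ) (q : (Fin c → ℝ) × (Fin n → ℝ)) (i : Fin c) :
    g c n q (Fin.castAdd n i) = q.1 i := Fin.append_left _ _ _

lemma g_right (c n : ℕ) (q : (Fin c → ℝ) × (Fin n → ℝ)) (i : Fin n) :
    g c n q (Fin.natAdd c i) = q.2 i := Fin.append_right _ _ _

lemma measurable_g (c n : ℕ) : Measurable (g c n) := by
  refine measurable_pi_lambda _ fun i => ?_
  induction i using Fin.addCases with
  | left i =>
    simp only [g_left]
    exact (measurable_pi_apply i).comp measurable_fst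
  | right i =>
    simp only [g_right]
    exact (measurable_pi_apply i).comp measurable_snd

lemma map_g (c n : ℕ) : ((mu c).prod (mu n)).map (g c n) = mu (c + n) := by
  symm
  unfold mu
  apply Measure.pi_eq
  intro s hs
  have hpre : g c n ⁻¹' (univ.pi s) =
      (univ.pi fun i => s (Fin.castAdd n i)) ×ˢ (univ.pi fun i => s (Fin.natAdd c i)) := by
    ext q
    simp only [mem_preimage, mem_pi, mem_univ, true_imp_iff, mem_prod]
    constructor
    · intro h
      refine ⟨fun i => ?_, fun i => ?_⟩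
      · rw [← g_left c n q i]
        exact h _
      · rw [← g_right c n q i]
        exact h _
    · rintro ⟨h1, h2⟩ i
      induction i using Fin.addCases with
      | left i =>
        rw [g_left]
        exact h1 i
      | right i =>
        rw [g_right]
        exact h2 i
  rw [Measure.map_apply (measurable_g c n) (MeasurableSet.univ_pi hs), hpre, Measure.prod_prod,
    Measure.pi_pi, Measure.pi_pi, Fin.prod_univ_add]

lemma measurable_occ {m n : ℕ} (p : Equiv.Perm (Fin (m + 1))) (i : ℕ) :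
    MeasurableSet {u : Fin n → ℝ | Occ p u i} := by
  by_cases hi : i + (m + 1) ≤ n
  · have : {u : Fin n → ℝ | Occ p u i} = ⋂ (a : Fin (m + 1)) (b : Fin (m + 1)),
        {u : Fin n → ℝ | u ⟨i + (a : ℕ), by omega⟩ < u ⟨i + (b : ℕ), by omega⟩ ↔ p a < p b} := by
      ext u
      simp only [Occ, mem_ofPred_eq, mem_iInter]
      exact ⟨fun h a b => h.2 a b _ _, fun h => ⟨hi, fun a b _ _ => h a b⟩⟩
    rw [this]
    refine MeasurableSet.iInter fun a => MeasurableSet.iInter fun b => ?_
    by_cases hab : p a < p b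
    · simp only [hab, iff_true]
      exact measurableSet_lt (measurable_pi_apply _) (measurable_pi_apply _)
    · simp only [hab, iff_false, not_lt]
      exact measurableSet_le (measurable_pi_apply _) (measurable_pi_apply _)
  · have : {u : Fin n → ℝ | Occ p u i} = ∅ := by
      ext u
      simp [Occ, hi]
    rw [this]
    exact MeasurableSet.empty

lemma occ_left {m c n : ℕ} (p : Equiv.Perm (Fin (m + 1))) (q : (Fin c → ℝ) × (Fin n → ℝ)) (i : ℕ)
    (hi : i + (m + 1) ≤ c) : Occ p (g c n q) i ↔ Occ p q.1 i := by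
  have h1 : ∀ (a : Fin (m + 1)) (ha : i + (a : ℕ) < c + n) (ha' : i + (a : ℕ) < c),
      g c n q ⟨i + (a : ℕ), ha⟩ = q.1 ⟨i + (a : ℕ), ha'⟩ := fun a ha ha' =>
    g_left c n q ⟨i + (a : ℕ), ha'⟩
  constructor
  · rintro ⟨-, h⟩
    refine ⟨hi, fun a b ha hb => ?_⟩
    rw [← h a b (by omega) (by omega), h1 a _ ha, h1 b _ hb]
  · rintro ⟨-, h⟩
    refine ⟨by omega, fun a b ha hb => ?_⟩
    rw [h1 a ha (by omega), h1 b hb (by omega)]
    exact h a b _ _

lemma occ_right {m c n : ℕ} (p : Equiv.Perm (Fin (m + 1))) (q : (Fin c → ℝ) × (Fin n → ℝ)) (i : ℕ) :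
    Occ p (g c n q) (c + i) ↔ Occ p q.2 i := by
  have h1 : ∀ (a : Fin (m + 1)) (ha : c + i + (a : ℕ) < c + n) (ha' : i + (a : ℕ) < n),
      g c n q ⟨c + i + (a : ℕ), ha⟩ = q.2 ⟨i + (a : ℕ), ha'⟩ := fun a ha ha' => by
    rw [← g_right c n q ⟨i + (a : ℕ), ha'⟩]
    congr 1
    ext
    simp only [Fin.natAdd_mk]
    omega
  constructor
  · rintro ⟨h0, h⟩
    refine ⟨by omega, fun a b ha hb => ?_⟩
    rw [← h a b (by omega) (by omega), h1 a _ ha, h1 b _ hb]
  · rintro ⟨h0, h⟩
    refine ⟨by omega, fun a b ha hb => ?_⟩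
    rw [h1 a ha (by omega), h1 b hb (by omega)]
    exact h a b _ _

theorem p_prod : P_PROD := by
  intro m p c n S T hS
  have hE : MeasurableSet {u : Fin (c + n) → ℝ |
      ∀ i ∈ S ∪ T.image (fun i => c + i), Occ p u i} := by
    have : {u : Fin (c + n) → ℝ | ∀ i ∈ S ∪ T.image (fun i => c + i), Occ p u i} =
        ⋂ (i : ℕ) (_ : i ∈ S ∪ T.image (fun i => c + i)), {u : Fin (c + n) → ℝ | Occ p u i} := by
      ext u
      simp
    rw [this]
    exact MeasurableSet.iInter fun i => MeasurableSet.iInter fun _ => measurable_occ p i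
  have hpre : g c n ⁻¹' {u : Fin (c + n) → ℝ | ∀ i ∈ S ∪ T.image (fun i => c + i), Occ p u i} =
      {v : Fin c → ℝ | ∀ i ∈ S, Occ p v i} ×ˢ {w : Fin n → ℝ | ∀ i ∈ T, Occ p w i} := by
    ext q
    simp only [mem_preimage, mem_ofPred_eq, mem_prod, Finset.mem_union, Finset.mem_image]
    constructor
    · intro h
      exact ⟨fun i hi => (occ_left p q i (hS i hi)).1 (h i (Or.inl hi)),
        fun i hi => (occ_right p q i).1 (h _ (Or.inr ⟨i, hi, rfl⟩))⟩
    · rintro ⟨h1, h2⟩ i (hi | ⟨j, hj, rfl⟩)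
      · exact (occ_left p q i (hS i hi)).2 (h1 i hi)
      · exact (occ_right p q j).2 (h2 j hj)
  unfold V
  rw [Measure.real, Measure.real, Measure.real, ← map_g c n,
    Measure.map_apply (measurable_g c n) hE, hpre, Measure.prod_prod, ENNReal.toReal_mul]

end Pool.Agent.W2helper97.CW
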